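import Mathlib

/-!
# The Figiel–Johnson form of the Tsirelson norm

Construction, fixed point property and uniqueness of the Tsirelson norm on the finitely
supported real sequences indexed by `1, 2, 3, …`.
-/

namespace Pool.Agent.U501.Tsirelson

open Finset

/-- The space `c₀₀` of finitely supported real sequences indexed by `1, 2, 3, …`. -/
abbrev C00 := ℕ+ →₀ ℝ

/-- The restriction `E x` of `x` to the finite set `E`. -/
noncomputable def restr (E : Finset ℕ+) (x : C00) : C00 := x.filter (fun k => k ∈ E)

/-- `n ≤ E₁ < E₂ < ⋯ < Eₙ`, all the `Eᵢ` finite and nonempty, `n ≥ 1`. -/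
structure Adm (n : ℕ) (E : Fin n → Finset ℕ+) : Prop where
  pos : 1 ≤ n
  nonempty : ∀ i, (E i).Nonempty
  start : ∀ i, ∀ k ∈ E i, n ≤ (k : ℕ)
  sep : ∀ i j, i < j → ∀ a ∈ E i, ∀ b ∈ E j, a < b

/-- The set of all numbers `|x k|` and all numbers `½ ∑ N (Eᵢ x)`, `(Eᵢ)` admissible. -/
def values (N : C00 → ℝ) (x : C00) : Set ℝ :=
  {r | ∃ k, r = |x k|} ∪
    {r | ∃ (n : ℕ) (E : Fin n → Finset ℕ+), Adm n E ∧ r = (1 / 2) * ∑ i, N (restr (E i) x)}

/-- `N` is a norm on `c₀₀` with `N x = max {‖x‖_∞, ½ sup ∑ N (Eᵢ x)}`. -/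
structure IsTsirelsonNorm (N : C00 → ℝ) : Prop where
  add_le : ∀ x y, N (x + y) ≤ N x + N y
  smul : ∀ (c : ℝ) x, N (c • x) = |c| * N x
  eq_zero : ∀ x, N x = 0 → x = 0
  isLUB : ∀ x, IsLUB (values N x) (N x)

/-- The `ℓ₁` norm. -/
noncomputable def l1 (x : C00) : ℝ := x.sum (fun _ a => |a|)

lemma l1_nonneg (x : C00) : 0 ≤ l1 x := Finset.sum_nonneg (fun _ _ => abs_nonneg _)

lemma restr_apply (E : Finset ℕ+) (x : C00) (k : ℕ+) :
    restr E x k = if k ∈ E then x k else 0 := by
  simp [restr, Finsupp.filter_apply]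

lemma restr_add (E : Finset ℕ+) (x y : C00) : restr E (x + y) = restr E x + restr E y := by
  ext k; simp only [restr_apply, Finsupp.add_apply]; split_ifs <;> simp

lemma restr_smul (E : Finset ℕ+) (c : ℝ) (x : C00) : restr E (c • x) = c • restr E x := by
  ext k; simp only [restr_apply, Finsupp.smul_apply]; split_ifs <;> simp

lemma l1_eq_sum (x : C00) (s : Finset ℕ+) (hs : x.support ⊆ s) : l1 x = ∑ k ∈ s, |x k| := by
  unfold l1
  rw [Finsupp.sum_of_support_subset x hs]
  intro i _; simp

lemma l1_restr (E : Finset ℕ+) (x : C00) :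
    l1 (restr E x) = ∑ k ∈ x.support, if k ∈ E then |x k| else 0 := by
  rw [l1_eq_sum (restr E x) x.support]
  · apply Finset.sum_congr rfl
    intro k _
    rw [restr_apply]; split_ifs <;> simp
  · intro k hk
    rw [Finsupp.mem_support_iff, restr_apply] at hk
    rw [Finsupp.mem_support_iff]
    intro h; apply hk; simp [h]

lemma adm_unique {n : ℕ} {E : Fin n → Finset ℕ+} (hE : Adm n E) {k : ℕ+} {i j : Fin n}
    (hi : k ∈ E i) (hj : k ∈ E j) : i = j := by
  rcases lt_trichotomy i j with h | h | h
  · exact absurd (hE.sep i j h k hi k hj) (lt_irrefl _)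
  · exact h
  · exact absurd (hE.sep j i h k hj k hi) (lt_irrefl _)

lemma sum_l1_restr_le {n : ℕ} {E : Fin n → Finset ℕ+} (hE : Adm n E) (x : C00) :
    ∑ i, l1 (restr (E i) x) ≤ l1 x := by
  simp only [l1_restr]
  rw [Finset.sum_comm]
  rw [l1_eq_sum x x.support (subset_refl _)]
  apply Finset.sum_le_sum
  intro k _
  by_cases h : ∃ i, k ∈ E i
  · obtain ⟨i, hi⟩ := h
    rw [Finset.sum_eq_single i]
    · simp [hi]
    · intro j _ hj
      rw [if_neg]
      intro hk
      exact hj (adm_unique hE hk hi)
    · intro h; exact absurd (Finset.mem_univ _) h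
  · push Not at h
    rw [Finset.sum_eq_zero]
    · exact abs_nonneg _
    · intro i _; rw [if_neg (h i)]

lemma abs_le_l1 (x : C00) (k : ℕ+) : |x k| ≤ l1 x := by
  rw [l1_eq_sum x (insert k x.support) (Finset.subset_insert _ _)]
  exact Finset.single_le_sum (f := fun k => |x k|) (fun _ _ => abs_nonneg _)
    (Finset.mem_insert_self _ _)

lemma values_nonempty (N : C00 → ℝ) (x : C00) : (values N x).Nonempty :=
  ⟨|x 1|, Or.inl ⟨1, rfl⟩⟩

lemma values_le_l1 {N : C00 → ℝ} (hN : ∀ x, N x ≤ l1 x) (x : C00) :
    ∀ r ∈ values N x, r ≤ l1 x := by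
  rintro r (⟨k, rfl⟩ | ⟨n, E, hE, rfl⟩)
  · exact abs_le_l1 x k
  · have h1 : ∑ i, N (restr (E i) x) ≤ ∑ i, l1 (restr (E i) x) :=
      Finset.sum_le_sum (fun i _ => hN _)
    have h2 := sum_l1_restr_le hE x
    have h3 := l1_nonneg x
    linarith

lemma values_bddAbove {N : C00 → ℝ} (hN : ∀ x, N x ≤ l1 x) (x : C00) :
    BddAbove (values N x) := ⟨l1 x, fun r hr => values_le_l1 hN x r hr⟩

/-- The iterates whose supremum is the Tsirelson norm. -/
noncomputable def iter : ℕ → C00 → ℝ
  | 0, _ => 0
  | m + 1, x => sSup (values (iter m) x)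

lemma iter_le_l1 (m : ℕ) : ∀ x, iter m x ≤ l1 x := by
  induction m with
  | zero => intro x; exact l1_nonneg x
  | succ m ih =>
    intro x
    exact csSup_le (values_nonempty _ _) (values_le_l1 ih x)

lemma iter_nonneg (m : ℕ) : ∀ x, 0 ≤ iter m x := by
  induction m with
  | zero => intro x; exact le_refl _
  | succ m ih =>
    intro x
    exact le_trans (abs_nonneg (x 1))
      (le_csSup (values_bddAbove (iter_le_l1 m) x) (Or.inl ⟨1, rfl⟩))

lemma iter_mono_succ (m : ℕ) : ∀ x, iter m x ≤ iter (m + 1) x := by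
  induction m with
  | zero => intro x; exact iter_nonneg 1 x
  | succ m ih =>
    intro x
    apply csSup_le (values_nonempty _ _)
    rintro r (⟨k, rfl⟩ | ⟨n, E, hE, rfl⟩)
    · exact le_csSup (values_bddAbove (iter_le_l1 (m + 1)) x) (Or.inl ⟨k, rfl⟩)
    · refine le_trans ?_ (le_csSup (values_bddAbove (iter_le_l1 (m + 1)) x)
        (Or.inr ⟨n, E, hE, rfl⟩))
      have : ∑ i, iter m (restr (E i) x) ≤ ∑ i, iter (m + 1) (restr (E i) x) :=
        Finset.sum_le_sum (fun i _ => ih _)
      linarith

lemma iter_mono {m m' : ℕ} (h : m ≤ m') (x : C00) : iter m x ≤ iter m' x :=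
  monotone_nat_of_le_succ (f := fun m => iter m x) (fun m => iter_mono_succ m x) h

lemma iter_add_le (m : ℕ) : ∀ x y, iter m (x + y) ≤ iter m x + iter m y := by
  induction m with
  | zero => intro x y; simp [iter]
  | succ m ih =>
    intro x y
    apply csSup_le (values_nonempty _ _)
    rintro r (⟨k, rfl⟩ | ⟨n, E, hE, rfl⟩)
    · have h1 : |x k| ≤ iter (m + 1) x :=
        le_csSup (values_bddAbove (iter_le_l1 m) x) (Or.inl ⟨k, rfl⟩)
      have h2 : |y k| ≤ iter (m + 1) y :=
        le_csSup (values_bddAbove (iter_le_l1 m) y) (Or.inl ⟨k, rfl⟩)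
      have h3 := abs_add_le (x k) (y k)
      rw [Finsupp.add_apply]; linarith
    · have h1 : (1 / 2) * ∑ i, iter m (restr (E i) x) ≤ iter (m + 1) x :=
        le_csSup (values_bddAbove (iter_le_l1 m) x) (Or.inr ⟨n, E, hE, rfl⟩)
      have h2 : (1 / 2) * ∑ i, iter m (restr (E i) y) ≤ iter (m + 1) y :=
        le_csSup (values_bddAbove (iter_le_l1 m) y) (Or.inr ⟨n, E, hE, rfl⟩)
      have h3 : ∑ i, iter m (restr (E i) (x + y)) ≤
          ∑ i, (iter m (restr (E i) x) + iter m (restr (E i) y)) := by
        apply Finset.sum_le_sum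
        intro i _
        rw [restr_add]; exact ih _ _
      rw [Finset.sum_add_distrib] at h3
      linarith

lemma iter_smul_le (m : ℕ) : ∀ (c : ℝ) x, iter m (c • x) ≤ |c| * iter m x := by
  induction m with
  | zero => intro c x; simp [iter]
  | succ m ih =>
    intro c x
    apply csSup_le (values_nonempty _ _)
    rintro r (⟨k, rfl⟩ | ⟨n, E, hE, rfl⟩)
    · have h1 : |x k| ≤ iter (m + 1) x :=
        le_csSup (values_bddAbove (iter_le_l1 m) x) (Or.inl ⟨k, rfl⟩)
      rw [Finsupp.smul_apply, smul_eq_mul, abs_mul]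
      exact mul_le_mul_of_nonneg_left h1 (abs_nonneg c)
    · have h1 : (1 / 2) * ∑ i, iter m (restr (E i) x) ≤ iter (m + 1) x :=
        le_csSup (values_bddAbove (iter_le_l1 m) x) (Or.inr ⟨n, E, hE, rfl⟩)
      have h3 : ∑ i, iter m (restr (E i) (c • x)) ≤
          ∑ i, |c| * iter m (restr (E i) x) := by
        apply Finset.sum_le_sum
        intro i _
        rw [restr_smul]; exact ih _ _
      rw [← Finset.mul_sum] at h3
      have h4 := mul_le_mul_of_nonneg_left h1 (abs_nonneg c)
      calc (1 / 2) * ∑ i, iter m (restr (E i) (c • x))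
          ≤ (1 / 2) * (|c| * ∑ i, iter m (restr (E i) x)) := by linarith
        _ = |c| * ((1 / 2) * ∑ i, iter m (restr (E i) x)) := by ring
        _ ≤ |c| * iter (m + 1) x := h4

/-- The Tsirelson norm. -/
noncomputable def tnorm (x : C00) : ℝ := ⨆ m, iter m x

lemma iter_bdd (x : C00) : BddAbove (Set.range (fun m => iter m x)) := by
  refine ⟨l1 x, ?_⟩
  rintro _ ⟨m, rfl⟩
  exact iter_le_l1 m x

lemma iter_le_tnorm (m : ℕ) (x : C00) : iter m x ≤ tnorm x := le_ciSup (iter_bdd x) m

lemma tnorm_le {x : C00} {b : ℝ} (h : ∀ m, iter m x ≤ b) : tnorm x ≤ b := ciSup_le h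

lemma iter_tendsto (x : C00) :
    Filter.Tendsto (fun m => iter m x) Filter.atTop (nhds (tnorm x)) :=
  tendsto_atTop_ciSup (fun _ _ h => iter_mono h x) (iter_bdd x)

lemma tnorm_le_l1 (x : C00) : tnorm x ≤ l1 x := tnorm_le (fun m => iter_le_l1 m x)

lemma tnorm_add_le (x y : C00) : tnorm (x + y) ≤ tnorm x + tnorm y :=
  tnorm_le (fun m => le_trans (iter_add_le m x y)
    (add_le_add (iter_le_tnorm m x) (iter_le_tnorm m y)))

lemma tnorm_smul_le (c : ℝ) (x : C00) : tnorm (c • x) ≤ |c| * tnorm x :=
  tnorm_le (fun m => le_trans (iter_smul_le m c x)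
    (mul_le_mul_of_nonneg_left (iter_le_tnorm m x) (abs_nonneg c)))

lemma tnorm_nonneg (x : C00) : 0 ≤ tnorm x := le_trans (iter_nonneg 0 x) (iter_le_tnorm 0 x)

lemma tnorm_smul (c : ℝ) (x : C00) : tnorm (c • x) = |c| * tnorm x := by
  apply le_antisymm (tnorm_smul_le c x)
  by_cases hc : c = 0
  · subst hc
    simp only [abs_zero, zero_mul]
    exact tnorm_nonneg _
  · have h := tnorm_smul_le c⁻¹ (c • x)
    rw [smul_smul, inv_mul_cancel₀ hc, one_smul, abs_inv] at h
    have hc' : 0 < |c| := abs_pos.mpr hc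
    calc |c| * tnorm x ≤ |c| * (|c|⁻¹ * tnorm (c • x)) :=
          mul_le_mul_of_nonneg_left h hc'.le
      _ = tnorm (c • x) := by field_simp

lemma abs_le_tnorm (x : C00) (k : ℕ+) : |x k| ≤ tnorm x :=
  le_trans (le_csSup (values_bddAbove (iter_le_l1 0) x) (Or.inl ⟨k, rfl⟩)) (iter_le_tnorm 1 x)

lemma tnorm_isTsirelson : IsTsirelsonNorm tnorm where
  add_le := tnorm_add_le
  smul := tnorm_smul
  eq_zero := by
    intro x hx
    ext k
    have := abs_le_tnorm x k
    rw [hx] at this
    simpa using abs_nonpos_iff.mp this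
  isLUB := by
    intro x
    constructor
    · rintro r (⟨k, rfl⟩ | ⟨n, E, hE, rfl⟩)
      · exact abs_le_tnorm x k
      · have h1 : Filter.Tendsto (fun m => (1 / 2) * ∑ i, iter m (restr (E i) x)) Filter.atTop
            (nhds ((1 / 2) * ∑ i, tnorm (restr (E i) x))) := by
          apply Filter.Tendsto.const_mul
          apply tendsto_finsetSum
          intro i _
          exact iter_tendsto _
        apply le_of_tendsto' h1
        intro m
        refine le_trans ?_ (iter_le_tnorm (m + 1) x)
        exact le_csSup (values_bddAbove (iter_le_l1 m) x) (Or.inr ⟨n, E, hE, rfl⟩)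
    · intro b hb
      apply tnorm_le
      intro m
      refine le_trans (iter_mono_succ m x) ?_
      apply csSup_le (values_nonempty _ _)
      rintro r (⟨k, rfl⟩ | ⟨n, E, hE, rfl⟩)
      · exact hb (Or.inl ⟨k, rfl⟩)
      · refine le_trans ?_ (hb (Or.inr ⟨n, E, hE, rfl⟩))
        have : ∑ i, iter m (restr (E i) x) ≤ ∑ i, tnorm (restr (E i) x) :=
          Finset.sum_le_sum (fun i _ => iter_le_tnorm m _)
        linarith

lemma restr_support (E : Finset ℕ+) (x : C00) : (restr E x).support = x.support ∩ E := by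
  ext k
  simp only [Finsupp.mem_support_iff, restr_apply, Finset.mem_inter]
  by_cases h : k ∈ E <;> simp [h]

lemma IsTsirelsonNorm.zero {N : C00 → ℝ} (hN : IsTsirelsonNorm N) : N 0 = 0 := by
  have := hN.smul 0 0
  simpa using this

lemma IsTsirelsonNorm.nonneg {N : C00 → ℝ} (hN : IsTsirelsonNorm N) (x : C00) : 0 ≤ N x :=
  le_trans (abs_nonneg (x 1)) ((hN.isLUB x).1 (Or.inl ⟨1, rfl⟩))

/-- One inequality between two Tsirelson norms, by induction on the support. -/
lemma unique_le {N M : C00 → ℝ} (hN : IsTsirelsonNorm N) (hM : IsTsirelsonNorm M) :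
    ∀ (s : ℕ) (x : C00), x.support.card = s → N x ≤ M x := by
  intro s
  induction s using Nat.strong_induction_on with
  | _ s ih =>
    intro x hx
    by_contra hlt
    push Not at hlt
    have hMx := hM.nonneg x
    have key : N x ≤ max (M x) (N x / 2) := by
      apply (hN.isLUB x).2
      rintro r (⟨k, rfl⟩ | ⟨n, E, hE, rfl⟩)
      · exact le_trans ((hM.isLUB x).1 (Or.inl ⟨k, rfl⟩)) (le_max_left _ _)
      · by_cases hfull : ∃ i, x.support ⊆ E i
        · obtain ⟨i, hi⟩ := hfull
          have hsum : ∑ j, N (restr (E j) x) = N x := by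
            rw [Finset.sum_eq_single i]
            · congr 1
              ext k
              rw [restr_apply]
              split_ifs with h
              · rfl
              · by_contra hk
                apply h
                apply hi
                rw [Finsupp.mem_support_iff]
                exact fun h0 => hk h0.symm
            · intro j _ hj
              have : restr (E j) x = 0 := by
                ext k
                rw [restr_apply]
                split_ifs with h
                · by_contra hk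
                  have : k ∈ x.support := by
                    rw [Finsupp.mem_support_iff]; exact fun h0 => hk h0
                  exact hj (adm_unique hE h (hi this))
                · rfl
              rw [this, hN.zero]
            · intro h; exact absurd (Finset.mem_univ _) h
          rw [hsum]
          refine le_trans (le_of_eq ?_) (le_max_right _ _)
          ring
        · push Not at hfull
          have hsum : ∑ j, N (restr (E j) x) ≤ ∑ j, M (restr (E j) x) := by
            apply Finset.sum_le_sum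
            intro j _
            refine ih (restr (E j) x).support.card ?_ _ rfl
            rw [restr_support, ← hx]
            apply Finset.card_lt_card
            rw [Finset.ssubset_iff_subset_ne]
            refine ⟨Finset.inter_subset_left, ?_⟩
            intro h
            apply hfull j
            rw [← h]
            exact Finset.inter_subset_right
          refine le_trans ?_ (le_trans ((hM.isLUB x).1 (Or.inr ⟨n, E, hE, rfl⟩))
            (le_max_left _ _))
          linarith
    rcases le_max_iff.mp key with h | h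
    · linarith
    · linarith

theorem tsirelsonNorm_unique {N : C00 → ℝ} (hN : IsTsirelsonNorm N) : N = tnorm := by
  funext x
  exact le_antisymm (unique_le hN tnorm_isTsirelson _ x rfl)
    (unique_le tnorm_isTsirelson hN _ x rfl)

end Pool.Agent.U501.Tsirelson
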