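import Pool.Agent.U501.Tsirelson.Norm

/-!
# The Tsirelson space and its separation constant
-/

namespace Pool.Agent.U501.Tsirelson

open Finset

/-- The separation constant `P(X)`: the supremum of the `lam > 0` for which the closed unit ball
contains an infinite `lam`-separated set. -/
noncomputable def sepConst (X : Type*) [NormedAddCommGroup X] : ℝ :=
  sSup {lam : ℝ | 0 < lam ∧ ∃ S : Set X, S.Infinite ∧ (∀ x ∈ S, ‖x‖ ≤ 1) ∧
    ∀ x ∈ S, ∀ y ∈ S, x ≠ y → lam ≤ ‖x - y‖}

/-- A copy of `c₀₀`, to carry the Tsirelson norm. -/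
def TPre : Type := C00

noncomputable instance : AddCommGroup TPre := inferInstanceAs (AddCommGroup C00)
noncomputable instance : Module ℝ TPre := inferInstanceAs (Module ℝ C00)

noncomputable instance : Norm TPre := ⟨fun x => tnorm x⟩

lemma tpre_norm (x : TPre) : ‖x‖ = tnorm x := rfl

lemma tpreCore : NormedSpace.Core ℝ TPre where
  norm_nonneg := fun x => tnorm_nonneg x
  norm_smul := fun c x => by
    rw [Real.norm_eq_abs]; exact tnorm_smul c x
  norm_triangle := fun x y => tnorm_add_le x y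
  norm_eq_zero_iff := fun x => by
    constructor
    · intro h; exact tnorm_isTsirelson.eq_zero x h
    · intro h; subst h; exact tnorm_isTsirelson.zero

noncomputable instance : NormedAddCommGroup TPre := NormedAddCommGroup.ofCore tpreCore
noncomputable instance : NormedSpace ℝ TPre where
  norm_smul_le := fun c x => le_of_eq (tpreCore.norm_smul c x)

/-- The identity map from `c₀₀` to its copy carrying the Tsirelson norm. -/
def toPre (x : C00) : TPre := x

/-- The Tsirelson space: the completion of `c₀₀` in the Tsirelson norm. -/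
abbrev TsirelsonSpace : Type := UniformSpace.Completion TPre

/-- The canonical map from `c₀₀` to the Tsirelson space. -/
noncomputable def toT (x : C00) : TsirelsonSpace := ((toPre x : TPre) : TsirelsonSpace)

lemma norm_toT (x : C00) : ‖toT x‖ = tnorm x := UniformSpace.Completion.norm_coe _

lemma toT_sub (x y : C00) : toT (x - y) = toT x - toT y :=
  UniformSpace.Completion.coe_sub (toPre x) (toPre y)

/-- The unit vector `e_k`. -/
noncomputable def e (k : ℕ+) : C00 := Finsupp.single k 1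

/-- The vector `v n = e_{2n+4} + e_{2n+5}`. -/
noncomputable def v (n : ℕ) : C00 := e (Nat.succPNat (2 * n + 3)) + e (Nat.succPNat (2 * n + 4))

lemma v_apply (n : ℕ) (k : ℕ+) :
    v n k = if (k : ℕ) = 2 * n + 4 ∨ (k : ℕ) = 2 * n + 5 then 1 else 0 := by
  unfold v e
  rw [Finsupp.add_apply, Finsupp.single_apply, Finsupp.single_apply]
  have h1 : ((Nat.succPNat (2 * n + 3)) = k) ↔ (k : ℕ) = 2 * n + 4 := by
    rw [← PNat.coe_inj]; simp only [Nat.succPNat_coe]; omega
  have h2 : (((Nat.succPNat (2 * n + 4)) : ℕ+) = k) ↔ (k : ℕ) = 2 * n + 5 := by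
    rw [← PNat.coe_inj]; simp only [Nat.succPNat_coe]; omega
  simp only [h1, h2]
  by_cases ha : (k : ℕ) = 2 * n + 4
  · have hb : ¬ (k : ℕ) = 2 * n + 5 := by omega
    simp [ha]
  · by_cases hb : (k : ℕ) = 2 * n + 5
    · simp [hb]
    · simp [ha, hb]

lemma l1_v (n : ℕ) : l1 (v n) ≤ 2 := by
  have hs : (v n).support ⊆ {(Nat.succPNat (2 * n + 3)), (Nat.succPNat (2 * n + 4))} := by
    intro k hk
    rw [Finsupp.mem_support_iff, v_apply] at hk
    simp only [Finset.mem_insert, Finset.mem_singleton, ← PNat.coe_inj, Nat.succPNat_coe]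
    by_contra h
    exact hk (if_neg h)
  rw [l1_eq_sum _ _ hs, Finset.sum_pair]
  · simp only [v_apply, Nat.succPNat_coe]
    norm_num
  · intro h
    have := congrArg (fun k : ℕ+ => (k : ℕ)) h
    simp only [Nat.succPNat_coe] at this
    omega

lemma tnorm_v_le (n : ℕ) : tnorm (v n) ≤ 1 := by
  apply (tnorm_isTsirelson.isLUB (v n)).2
  rintro r (⟨k, rfl⟩ | ⟨m, E, hE, rfl⟩)
  · rw [v_apply]; split_ifs <;> simp
  · have h1 : ∑ i, tnorm (restr (E i) (v n)) ≤ ∑ i, l1 (restr (E i) (v n)) :=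
      Finset.sum_le_sum (fun i _ => tnorm_le_l1 _)
    have h2 := sum_l1_restr_le hE (v n)
    have h3 := l1_v n
    linarith

/-- Four coordinates of absolute value `≥ 1` at places `≥ 4` give norm `≥ 2`. -/
lemma two_le_tnorm (x : C00) (f : Fin 4 → ℕ+) (hf : StrictMono f) (h4 : ∀ i, 4 ≤ (f i : ℕ))
    (hx : ∀ i, 1 ≤ |x (f i)|) : 2 ≤ tnorm x := by
  have hA : Adm 4 (fun i => {f i}) := by
    refine ⟨by norm_num, fun i => Finset.singleton_nonempty _, ?_, ?_⟩
    · intro i k hk
      rw [Finset.mem_singleton] at hk; rw [hk]; exact h4 i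
    · intro i j hij a ha b hb
      rw [Finset.mem_singleton] at ha hb
      rw [ha, hb]; exact hf hij
  have h := (tnorm_isTsirelson.isLUB x).1 (Or.inr ⟨4, _, hA, rfl⟩)
  have h1 : ∀ i : Fin 4, 1 ≤ tnorm (restr {f i} x) := by
    intro i
    refine le_trans ?_ (abs_le_tnorm _ (f i))
    rw [restr_apply]
    simpa using hx i
  have h2 : ∑ i : Fin 4, (1 : ℝ) ≤ ∑ i : Fin 4, tnorm (restr {f i} x) :=
    Finset.sum_le_sum (fun i _ => h1 i)
  simp only [Finset.sum_const, Finset.card_univ, Fintype.card_fin, nsmul_eq_mul, mul_one] at h2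
  have h3 : (1 / 2) * ∑ i : Fin 4, tnorm (restr {f i} x) ≤ tnorm x := h
  push_cast at h2
  linarith

lemma two_le_tnorm_sub {n m : ℕ} (h : n < m) : 2 ≤ tnorm (v n - v m) := by
  let f : Fin 4 → ℕ+ := ![(Nat.succPNat (2 * n + 3)), (Nat.succPNat (2 * n + 4)),
    (Nat.succPNat (2 * m + 3)), (Nat.succPNat (2 * m + 4))]
  have f0 : ((f 0 : ℕ+) : ℕ) = 2 * n + 4 := rfl
  have f1 : ((f 1 : ℕ+) : ℕ) = 2 * n + 5 := rfl
  have f2 : ((f 2 : ℕ+) : ℕ) = 2 * m + 4 := rfl
  have f3 : ((f 3 : ℕ+) : ℕ) = 2 * m + 5 := rfl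
  apply two_le_tnorm (v n - v m) f
  · intro i j hij
    rw [← PNat.coe_lt_coe]
    fin_cases i <;> fin_cases j <;> simp at hij <;>
      simp only [Fin.zero_eta, Fin.mk_one, Fin.reduceFinMk, f0, f1, f2, f3] <;> omega
  · intro i
    fin_cases i <;> simp only [Fin.zero_eta, Fin.mk_one, Fin.reduceFinMk, f0, f1, f2, f3] <;> omega
  · intro i
    rw [Finsupp.sub_apply, v_apply, v_apply]
    fin_cases i <;> simp only [Fin.zero_eta, Fin.mk_one, Fin.reduceFinMk, f0, f1, f2, f3]
    · have a1 : ¬ (2 * n + 4 = 2 * m + 4 ∨ 2 * n + 4 = 2 * m + 5) := by omega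
      rw [if_neg a1]; simp
    · have a1 : ¬ (2 * n + 5 = 2 * m + 4 ∨ 2 * n + 5 = 2 * m + 5) := by omega
      rw [if_neg a1]; simp
    · have a1 : ¬ (2 * m + 4 = 2 * n + 4 ∨ 2 * m + 4 = 2 * n + 5) := by omega
      rw [if_neg a1]; simp
    · have a1 : ¬ (2 * m + 5 = 2 * n + 4 ∨ 2 * m + 5 = 2 * n + 5) := by omega
      rw [if_neg a1]; simp

lemma two_le_tnorm_sub' {n m : ℕ} (h : n ≠ m) : 2 ≤ tnorm (v n - v m) := by
  rcases lt_or_gt_of_ne h with h | h
  · exact two_le_tnorm_sub h
  · have h1 := two_le_tnorm_sub h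
    have h2 := tnorm_smul (-1) (v n - v m)
    have h3 : (-1 : ℝ) • (v n - v m) = v m - v n := by
      rw [neg_one_smul, neg_sub]
    rw [h3] at h2
    simp only [abs_neg, abs_one, one_mul] at h2
    linarith

lemma norm_sub_toT_v {n m : ℕ} (h : n ≠ m) : ‖toT (v n) - toT (v m)‖ = 2 := by
  rw [← toT_sub, norm_toT]
  apply le_antisymm
  · rw [← norm_toT, toT_sub]
    refine le_trans (norm_sub_le _ _) ?_
    rw [norm_toT, norm_toT]
    have h1 := tnorm_v_le n
    have h2 := tnorm_v_le m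
    linarith
  · exact two_le_tnorm_sub' h

lemma toT_v_injective : Function.Injective (fun n => toT (v n)) := by
  intro n m hnm
  by_contra h
  have h1 := norm_sub_toT_v h
  have h2 : toT (v n) = toT (v m) := hnm
  rw [h2, sub_self, norm_zero] at h1
  norm_num at h1

/-- The infinite set `{e_{2n+4} + e_{2n+5}}`. -/
def vset : Set TsirelsonSpace := Set.range (fun n => toT (v n))

lemma vset_infinite : vset.Infinite := Set.infinite_range_of_injective toT_v_injective

lemma vset_norm : ∀ x ∈ vset, ‖x‖ ≤ 1 := by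
  rintro _ ⟨n, rfl⟩
  rw [norm_toT]; exact tnorm_v_le n

lemma vset_sep : ∀ x ∈ vset, ∀ y ∈ vset, x ≠ y → ‖x - y‖ = 2 := by
  rintro _ ⟨n, rfl⟩ _ ⟨m, rfl⟩ hxy
  apply norm_sub_toT_v
  intro h
  exact hxy (by rw [h])

theorem sepConst_tsirelson : sepConst TsirelsonSpace = 2 := by
  apply IsGreatest.csSup_eq
  constructor
  · exact ⟨by norm_num, vset, vset_infinite, vset_norm,
      fun x hx y hy hxy => le_of_eq (vset_sep x hx y hy hxy).symm⟩
  · rintro lam ⟨_, S, hS, hS1, hS2⟩
    obtain ⟨x, hx, y, hy, hxy⟩ := hS.nontrivial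
    have h := hS2 x hx y hy hxy
    have h1 := hS1 x hx
    have h2 := hS1 y hy
    have h3 := norm_sub_le x y
    linarith

end Pool.Agent.U501.Tsirelson
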